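import Pool.Agent.Helper92.LA.A3

/-!
# LM-A: the sum `LS` at a radius near `R` is bounded by the moment over radii near `R` (local form of LA-A3)
-/

open MeasureTheory Real Set Filter Topology

set_option autoImplicit false

namespace Pool.Agent.Helper78.LM

open Pool.Agent.Helper22.AE
open Pool.Agent.Helper92.GC
open Pool.Agent.Helper92.DT
open Pool.Agent.Helper22.LP (Fr fv fk fdet nr tr hom LS nr_eq)
open Pool.Agent.Helper92.LA

private lemma s6_card_la {S : Finset (ℤ × ℤ)} {X Y : ℝ} (hX : 1 ≤ X) (hY : 1 ≤ Y)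
    (h : ∀ p ∈ S, |(p.1 : ℝ)| ≤ X ∧ |(p.2 : ℝ)| ≤ Y) : ((S6 S).card : ℝ) ≤ 169 * (X * Y) := by
  have h3 : ∀ l ∈ S3 S, |(l.1 : ℝ)| ≤ 3 * X ∧ |(l.2 : ℝ)| ≤ 3 * Y := by
    intro l hl
    unfold S3 at hl
    rw [Finset.mem_image] at hl
    obtain ⟨k, hk, rfl⟩ := hl
    rw [Finset.mem_product, Finset.mem_product] at hk
    obtain ⟨hk1, hk2, hk3⟩ := hk
    have a1 := h _ hk1
    have a2 := h _ hk2
    have a3 := h _ hk3
    simp only [abs_le] at a1 a2 a3 ⊢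
    simp only [Prod.fst_add, Prod.snd_add]
    push_cast
    refine ⟨⟨?_, ?_⟩, ?_, ?_⟩ <;> linarith [a1.1.1, a1.1.2, a1.2.1, a1.2.2, a2.1.1, a2.1.2, a2.2.1, a2.2.2,
      a3.1.1, a3.1.2, a3.2.1, a3.2.2]
  have key : ∀ (Z : ℝ) (a b : ℤ), |(a : ℝ)| ≤ 3 * Z → |(b : ℝ)| ≤ 3 * Z →
      a + b ∈ Finset.Icc (-⌊6 * Z⌋) ⌊6 * Z⌋ := by
    intro Z a b ha hb
    rw [abs_le] at ha hb
    rw [Finset.mem_Icc]
    constructor
    · rw [neg_le, Int.le_floor]
      push_cast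
      linarith [ha.1, hb.1]
    · rw [Int.le_floor]
      push_cast
      linarith [ha.2, hb.2]
  have hsub : S6 S ⊆ Finset.Icc (-⌊6 * X⌋) ⌊6 * X⌋ ×ˢ Finset.Icc (-⌊6 * Y⌋) ⌊6 * Y⌋ := by
    intro l hl
    unfold S6 at hl
    rw [Finset.mem_image] at hl
    obtain ⟨k, hk, rfl⟩ := hl
    rw [Finset.mem_product] at hk
    obtain ⟨hk1, hk2⟩ := hk
    rw [Finset.mem_product]
    exact ⟨key X _ _ (h3 _ hk1).1 (h3 _ hk2).1, key Y _ _ (h3 _ hk1).2 (h3 _ hk2).2⟩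
  have hcard : ∀ Z : ℝ, 1 ≤ Z → ((Finset.Icc (-⌊6 * Z⌋) ⌊6 * Z⌋).card : ℝ) ≤ 13 * Z := by
    intro Z hZ
    rw [Int.card_Icc]
    have h0 : 0 ≤ ⌊6 * Z⌋ := Int.floor_nonneg.mpr (by linarith)
    have h1 : ((⌊6 * Z⌋ + 1 - -⌊6 * Z⌋).toNat : ℤ) = ⌊6 * Z⌋ + 1 - -⌊6 * Z⌋ := Int.toNat_of_nonneg (by linarith)
    have h3 := Int.floor_le (6 * Z)
    have h4 : (((⌊6 * Z⌋ + 1 - -⌊6 * Z⌋).toNat : ℕ) : ℝ) = 2 * (⌊6 * Z⌋ : ℝ) + 1 := by
      have h5 : (((⌊6 * Z⌋ + 1 - -⌊6 * Z⌋).toNat : ℕ) : ℝ) = (((⌊6 * Z⌋ + 1 - -⌊6 * Z⌋).toNat : ℤ) : ℝ) := by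
        push_cast
        rfl
      rw [h5, h1]
      push_cast
      ring
    rw [h4]
    linarith
  have h1 := Finset.card_le_card hsub
  rw [Finset.card_product] at h1
  have h2 : ((S6 S).card : ℝ) ≤ ((Finset.Icc (-⌊6 * X⌋) ⌊6 * X⌋).card : ℝ) * ((Finset.Icc (-⌊6 * Y⌋) ⌊6 * Y⌋).card : ℝ) := by
    exact_mod_cast h1
  have h3 := mul_le_mul (hcard X hX) (hcard Y hY) (Nat.cast_nonneg _) (by linarith)
  linarith

/-- the local moment: radii `R + s`, `-1 ≤ s ≤ 2` -/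
noncomputable def Jl (f : Fr) (h : ℝ × ℝ → ℝ) (N : ℕ) (R : ℝ) : ℝ :=
  ∫ s in Icc (-1 : ℝ) 2, m12 (sqa N) (fun k => ee ((R + s) * h (fk f k)))

theorem Jl_nonneg (f : Fr) (h : ℝ × ℝ → ℝ) (N : ℕ) (R : ℝ) : 0 ≤ Jl f h N R :=
  integral_nonneg fun _ => m12_nonneg _ _

private theorem m12_r_cont78 (f : Fr) (h : ℝ × ℝ → ℝ) (N : ℕ) :
    Continuous (fun r : ℝ => m12 (sqa N) (fun k => ee (r * h (fk f k)))) := by
  refine m12_cont_coef (sqa N) (fun (r : ℝ) k => ee (r * h (fk f k))) fun k _ => ?_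
  exact ee_cont.comp (continuous_id.mul continuous_const)

/-- the pointwise bound -/
theorem ls_loc {M B : ℝ} (hM : 1 ≤ M) : ∃ C : ℝ, 0 < C ∧ ∀ f : Fr, Fb M f → ∀ h : ℝ × ℝ → ℝ, HL B h → ∀ w : ℝ × ℝ → ℂ, WL B w →
    ∀ i : ℕ, i ≤ 2 → ∀ N : ℕ, 1 ≤ N → ∀ R r : ℝ, |r - R| ≤ 1 → ∀ c : ℝ × ℝ,
      ‖LS f h w i N r c‖ ^ 12 ≤ C * (N : ℝ) ^ 3 * Jl f h N R := by
  obtain ⟨C, hC, hmul⟩ := ls_mul (M := M) (B := B) hM
  refine ⟨169 * 4 * C ^ 12, by positivity, ?_⟩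
  intro f hf h hh w hw i hi N hN R r hr c
  have hNr : (1 : ℝ) ≤ N := by exact_mod_cast hN
  have hN0 : (0 : ℝ) < N := by linarith
  obtain ⟨G, hG⟩ : ∃ G : ℝ → ℝ, G = fun r => m12 (sqa N) (fun k => ee (r * h (fk f k))) := ⟨_, rfl⟩
  have hGc : Continuous G := by
    rw [hG]
    exact m12_r_cont78 f h N
  have hG0 : ∀ r, 0 ≤ G r := by
    intro r
    rw [hG]
    exact m12_nonneg _ _
  have hcard : ((S6 (sqa N)).card : ℝ) ≤ 169 * (4 * (N : ℝ) ^ 2) := by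
    have h1 := s6_card_la (S := sqa N) (X := 2 * N) (Y := 2 * N) (by linarith) (by linarith) (by
      classical
      intro p hp
      unfold sqa at hp
      obtain ⟨-, -, h2, h3⟩ := Finset.mem_filter.1 hp
      constructor
      · exact_mod_cast h2.le
      · exact_mod_cast h3.le)
    refine h1.trans (le_of_eq ?_)
    ring
  -- the bound for each `r'`
  have h1 : ∀ r' ∈ Icc r (r + 1 / N), ‖LS f h w i N r c‖ ^ 12 ≤ 169 * (4 * (N : ℝ) ^ 2) * C ^ 12 * G r' := by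
    intro r' hr'
    have hs : |r - r'| ≤ 1 / N := by
      rw [abs_le]
      constructor
      · linarith [hr'.2]
      · have := hr'.1
        have h2 : 0 ≤ 1 / (N : ℝ) := by positivity
        linarith
    have h2 := (hmul f hf h hh w hw i hi N hN (r - r') hs).2 (fun k => ee (r' * h (fk f k)))
    have h3 : LS f h w i N r c = tp (sqa N) (fun k => (((N : ℝ) / nr (fk f k) : ℝ) : ℂ) ^ i * w (fk f k) *
        ee ((r - r') * h (fk f k)) * ee (r' * h (fk f k))) c := by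
      unfold LS tp
      refine Finset.sum_congr rfl fun k _ => ?_
      have h4 : ee (r * h (fk f k) + dt k c) = ee ((r - r') * h (fk f k)) * ee (r' * h (fk f k)) * ee (dt k c) := by
        rw [← ee_add, ← ee_add]
        congr 1
        ring
      rw [h4]
      ring
    rw [h3]
    refine (nik12 _ _ _).trans ?_
    have h5 : m12 (sqa N) (fun k => (((N : ℝ) / nr (fk f k) : ℝ) : ℂ) ^ i * w (fk f k) *
        ee ((r - r') * h (fk f k)) * ee (r' * h (fk f k))) ≤ C ^ 12 * G r' := by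
      rw [hG]
      exact h2
    calc ((S6 (sqa N)).card : ℝ) * m12 (sqa N) (fun k => (((N : ℝ) / nr (fk f k) : ℝ) : ℂ) ^ i * w (fk f k) *
        ee ((r - r') * h (fk f k)) * ee (r' * h (fk f k))) ≤ 169 * (4 * (N : ℝ) ^ 2) * (C ^ 12 * G r') :=
          mul_le_mul hcard h5 (m12_nonneg _ _) (by positivity)
      _ = _ := by ring
  have hr1 := abs_le.1 hr
  have hsub : Icc (r - R) (r - R + 1 / N) ⊆ Icc (-1) 2 := by
    intro x hx
    have h2 : 1 / (N : ℝ) ≤ 1 := by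
      rw [div_le_one hN0]
      exact hNr
    constructor
    · linarith [hx.1]
    · linarith [hx.2]
  have hvol : (volume (Icc (r - R) (r - R + 1 / (N : ℝ)))).toReal = 1 / N := by
    rw [Real.volume_Icc, ENNReal.toReal_ofReal (by
      have : 0 ≤ 1 / (N : ℝ) := by positivity
      linarith)]
    ring
  have hGs : Continuous fun s : ℝ => G (R + s) := hGc.comp (continuous_const.add continuous_id)
  have hJ : ∫ s in Icc (r - R) (r - R + 1 / N), G (R + s) ≤ Jl f h N R := by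
    unfold Jl
    have e : (fun s : ℝ => m12 (sqa N) (fun k => ee ((R + s) * h (fk f k)))) = fun s => G (R + s) := by
      rw [hG]
    rw [e]
    refine setIntegral_mono_set ?_ (Eventually.of_forall fun s => hG0 (R + s)) (Eventually.of_forall hsub)
    exact hGs.continuousOn.integrableOn_compact isCompact_Icc
  have h6 : ‖LS f h w i N r c‖ ^ 12 * (1 / N) ≤ 169 * (4 * (N : ℝ) ^ 2) * C ^ 12 * ∫ s in Icc (r - R) (r - R + 1 / N), G (R + s) := by
    have h7 : ∫ _s in Icc (r - R) (r - R + 1 / (N : ℝ)), ‖LS f h w i N r c‖ ^ 12 ≤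
        ∫ s in Icc (r - R) (r - R + 1 / (N : ℝ)), 169 * (4 * (N : ℝ) ^ 2) * C ^ 12 * G (R + s) := by
      refine setIntegral_mono_on ?_ ?_ measurableSet_Icc (fun s hs => h1 (R + s) ⟨by linarith [hs.1], by linarith [hs.2]⟩)
      · exact continuousOn_const.integrableOn_compact isCompact_Icc
      · exact (continuous_const.mul hGs).continuousOn.integrableOn_compact isCompact_Icc
    rw [integral_const_mul, setIntegral_const, Measure.real, hvol, smul_eq_mul] at h7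
    linarith
  have h8 : ‖LS f h w i N r c‖ ^ 12 * (1 / N) ≤ 169 * (4 * (N : ℝ) ^ 2) * C ^ 12 * Jl f h N R :=
    h6.trans (mul_le_mul_of_nonneg_left hJ (by positivity))
  calc ‖LS f h w i N r c‖ ^ 12 = ‖LS f h w i N r c‖ ^ 12 * (1 / N) * N := by
        field_simp
    _ ≤ 169 * (4 * (N : ℝ) ^ 2) * C ^ 12 * Jl f h N R * N := mul_le_mul_of_nonneg_right h8 hN0.le
    _ = 169 * 4 * C ^ 12 * (N : ℝ) ^ 3 * Jl f h N R := by ring

end Pool.Agent.Helper78.LM
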