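import Pool.Agent.Helper92.LA.B1
import Pool.Agent.Helper78.LM.A

/-!
# LM-B: the local moments: continuity, mean over the radii, Hoelder
-/

open MeasureTheory Real Set Filter Topology

set_option autoImplicit false

namespace Pool.Agent.Helper78.LM

open Pool.Agent.Helper22.AE
open Pool.Agent.Helper92.GC (sqa)
open Pool.Agent.Helper92.DT (m12 m12_nonneg)
open Pool.Agent.Helper22.LP (Fr fv fk fdet nr tr hom LS nr_eq)
open Pool.Agent.Helper92.LA

/-- the moment is continuous in the radius and the parameter -/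
theorem mom_cont {h : ℝ → ℝ × ℝ → ℝ} (hc : Continuous fun q : ℝ × (ℝ × ℝ) => h q.1 q.2) (f : Fr) (N : ℕ) :
    Continuous fun q : ℝ × ℝ => m12 (sqa N) (fun k => ee (q.2 * h q.1 (fk f k))) := by
  refine m12_cont_coef (sqa N) (fun (q : ℝ × ℝ) k => ee (q.2 * h q.1 (fk f k))) fun k _ => ?_
  refine ee_cont.comp (continuous_snd.mul ?_)
  exact hc.comp (continuous_fst.prodMk continuous_const)

theorem Jl_cont {h : ℝ → ℝ × ℝ → ℝ} (hc : Continuous fun q : ℝ × (ℝ × ℝ) => h q.1 q.2) (f : Fr) (N : ℕ) :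
    Continuous fun q : ℝ × ℝ => Jl f (h q.1) N q.2 := by
  unfold Jl
  refine continuous_parametric_integral_of_continuous
    (f := fun (q : ℝ × ℝ) (s : ℝ) => m12 (sqa N) (fun k => ee ((q.2 + s) * h q.1 (fk f k)))) ?_ isCompact_Icc
  have h1 := (mom_cont hc f N).comp
    (show Continuous fun q : (ℝ × ℝ) × ℝ => ((q.1.1, q.1.2 + q.2) : ℝ × ℝ) by fun_prop)
  exact h1

/-- the average over the parameter -/
noncomputable def Sl (f : Fr) (h : ℝ → ℝ × ℝ → ℝ) (α₀ : ℝ) (κ : ℝ → ℝ) (N : ℕ) (R : ℝ) : ℝ :=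
  ∫ α in Icc (-α₀) α₀, κ α * Jl f (h α) N R

theorem Sl_nonneg (f : Fr) (h : ℝ → ℝ × ℝ → ℝ) (α₀ : ℝ) {κ : ℝ → ℝ} (hκ0 : ∀ α, 0 ≤ κ α) (N : ℕ) (R : ℝ) :
    0 ≤ Sl f h α₀ κ N R :=
  integral_nonneg fun α => mul_nonneg (hκ0 α) (Jl_nonneg _ _ _ _)

theorem Sl_cont {h : ℝ → ℝ × ℝ → ℝ} (hc : Continuous fun q : ℝ × (ℝ × ℝ) => h q.1 q.2) (f : Fr) (α₀ : ℝ) {κ : ℝ → ℝ} (hκ : Continuous κ)
    (N : ℕ) : Continuous fun R : ℝ => Sl f h α₀ κ N R := by
  unfold Sl
  refine continuous_parametric_integral_of_continuous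
    (f := fun (R : ℝ) (α : ℝ) => κ α * Jl f (h α) N R) ?_ isCompact_Icc
  have h1 := (Jl_cont hc f N).comp (show Continuous fun q : ℝ × ℝ => ((q.2, q.1) : ℝ × ℝ) by fun_prop)
  exact (hκ.comp continuous_snd).mul h1

/-- mean over the radii for one parameter -/
theorem Jl_mean {h : ℝ × ℝ → ℝ} (f : Fr) (N : ℕ) {X : ℝ} (hX : 2 ≤ X) : ∫ R in Icc X (2 * X), Jl f h N R ≤ 3 * JJ f h X N := by
  obtain ⟨m, hm⟩ : ∃ m : ℝ → ℝ, m = fun r => m12 (sqa N) (fun k => ee (r * h (fk f k))) := ⟨_, rfl⟩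
  have hmc : Continuous m := by
    rw [hm]
    refine m12_cont_coef (sqa N) (fun (r : ℝ) k => ee (r * h (fk f k))) fun k _ => ?_
    exact ee_cont.comp (continuous_id.mul continuous_const)
  have hm0 : ∀ r, 0 ≤ m r := by
    intro r
    rw [hm]
    exact m12_nonneg _ _
  have e1 : ∀ R, Jl f h N R = ∫ s in Icc (-1 : ℝ) 2, m (R + s) := by
    intro R
    unfold Jl
    rw [hm]
  have e2 : JJ f h X N = ∫ r in Icc (X / 4) (8 * X), m r := by
    unfold JJ
    rw [hm]
  simp only [e1]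
  rw [integral_integral_swap]
  · have h1 : ∀ s ∈ Icc (-1 : ℝ) 2, ∫ R in Icc X (2 * X), m (R + s) ≤ JJ f h X N := by
      intro s hs
      have h2 : ∫ R in Icc X (2 * X), m (R + s) = ∫ r in Icc (X + s) (2 * X + s), m r := by
        rw [integral_Icc_eq_integral_Ioc, integral_Icc_eq_integral_Ioc, ← intervalIntegral.integral_of_le (by linarith),
          ← intervalIntegral.integral_of_le (by linarith), intervalIntegral.integral_comp_add_right]
      rw [h2, e2]
      refine setIntegral_mono_set ?_ (Eventually.of_forall hm0) (Eventually.of_forall ?_)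
      · exact hmc.continuousOn.integrableOn_compact isCompact_Icc
      · intro x hx
        exact ⟨by linarith [hx.1, hs.1], by linarith [hx.2, hs.2]⟩
    have hcs : Continuous fun s : ℝ => ∫ R in Icc X (2 * X), m (R + s) := by
      refine continuous_parametric_integral_of_continuous (f := fun (s : ℝ) (R : ℝ) => m (R + s)) ?_ isCompact_Icc
      exact hmc.comp (by fun_prop)
    calc ∫ s in Icc (-1 : ℝ) 2, ∫ R in Icc X (2 * X), m (R + s) ≤ ∫ _s in Icc (-1 : ℝ) 2, JJ f h X N := by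
          refine setIntegral_mono_on ?_ ?_ measurableSet_Icc h1
          · exact hcs.continuousOn.integrableOn_compact isCompact_Icc
          · exact continuousOn_const.integrableOn_compact isCompact_Icc
      _ = 3 * JJ f h X N := by
          rw [setIntegral_const, Measure.real, Real.volume_Icc, ENNReal.toReal_ofReal (by norm_num), smul_eq_mul]
          norm_num
  · rw [Measure.prod_restrict]
    refine ContinuousOn.integrableOn_compact (isCompact_Icc.prod isCompact_Icc) (Continuous.continuousOn ?_)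
    exact hmc.comp (by fun_prop)

/-- mean over the radii -/
theorem Sl_mean {h : ℝ → ℝ × ℝ → ℝ} (hc : Continuous fun q : ℝ × (ℝ × ℝ) => h q.1 q.2) (f : Fr) (α₀ : ℝ) {κ : ℝ → ℝ} (hκ : Continuous κ)
    (hκ0 : ∀ α, 0 ≤ κ α) (N : ℕ) {X : ℝ} (hX : 2 ≤ X) :
    ∫ R in Icc X (2 * X), Sl f h α₀ κ N R ≤ 3 * ∫ α in Icc (-α₀) α₀, κ α * JJ f (h α) X N := by
  have hJc := Jl_cont hc f N
  unfold Sl
  rw [integral_integral_swap]
  · have hJJ : Continuous fun α : ℝ => JJ f (h α) X N := by
      have h1 := (JJ_cont hc X N).comp (show Continuous fun α : ℝ => ((f, α) : Fr × ℝ) by fun_prop)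
      exact h1
    have hin : Continuous fun α : ℝ => ∫ R in Icc X (2 * X), κ α * Jl f (h α) N R := by
      refine continuous_parametric_integral_of_continuous (f := fun (α : ℝ) (R : ℝ) => κ α * Jl f (h α) N R) ?_ isCompact_Icc
      exact (hκ.comp continuous_fst).mul hJc
    rw [← integral_const_mul]
    refine setIntegral_mono_on ?_ ?_ measurableSet_Icc fun α _ => ?_
    · exact hin.continuousOn.integrableOn_compact isCompact_Icc
    · exact (continuous_const.mul (hκ.mul hJJ)).continuousOn.integrableOn_compact isCompact_Icc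
    · rw [integral_const_mul]
      have h2 := mul_le_mul_of_nonneg_left (Jl_mean (h := h α) f N hX) (hκ0 α)
      linarith
  · rw [Measure.prod_restrict]
    refine ContinuousOn.integrableOn_compact (isCompact_Icc.prod isCompact_Icc) (Continuous.continuousOn ?_)
    have h1 := hJc.comp (show Continuous fun q : ℝ × ℝ => ((q.2, q.1) : ℝ × ℝ) by fun_prop)
    exact (hκ.comp continuous_snd).mul h1

/-- Hoelder, in the form which is needed (as in LA-D1) -/
theorem hold78 {α₀ : ℝ} {κ J : ℝ → ℝ} (hκ : Continuous κ) (hκ0 : ∀ α, 0 ≤ κ α) (hJ : Continuous J) (hJ0 : ∀ α, 0 ≤ J α)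
    (hκ1 : ∫ α in Icc (-α₀) α₀, κ α ≤ 20) {l : ℝ} (hl : 0 < l) (hJ1 : ∫ α in Icc (-α₀) α₀, κ α * J α ≤ l ^ 12) :
    ∫ α in Icc (-α₀) α₀, κ α * J α ^ (1 / 12 : ℝ) ≤ 21 * l := by
  have hpt : ∀ α, κ α * J α ^ (1 / 12 : ℝ) ≤ l * κ α + 1 / l ^ 11 * (κ α * J α) := by
    intro α
    have h1 : J α ^ (1 / 12 : ℝ) ≤ l + 1 / l ^ 11 * J α := by
      obtain ⟨y, hy⟩ : ∃ y : ℝ, y = J α ^ (1 / 12 : ℝ) := ⟨_, rfl⟩
      have hy0 : 0 ≤ y := by
        rw [hy]
        exact rpow_nonneg (hJ0 α) _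
      have hy12 : y ^ 12 = J α := by
        rw [hy, ← rpow_natCast, ← rpow_mul (hJ0 α)]
        norm_num
      rw [← hy, ← hy12]
      rcases le_total y l with h | h
      · have : 0 ≤ 1 / l ^ 11 * y ^ 12 := by positivity
        linarith
      · have h2 : l ^ 11 ≤ y ^ 11 := pow_le_pow_left₀ hl.le h 11
        have h3 : y ≤ 1 / l ^ 11 * y ^ 12 := by
          rw [one_div, inv_mul_eq_div, le_div_iff₀ (by positivity)]
          calc y * l ^ 11 ≤ y * y ^ 11 := mul_le_mul_of_nonneg_left h2 hy0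
            _ = y ^ 12 := by ring
        linarith
    calc κ α * J α ^ (1 / 12 : ℝ) ≤ κ α * (l + 1 / l ^ 11 * J α) := mul_le_mul_of_nonneg_left h1 (hκ0 α)
      _ = _ := by ring
  have hJc : Continuous fun α => J α ^ (1 / 12 : ℝ) := hJ.rpow_const fun _ => Or.inr (by norm_num)
  calc ∫ α in Icc (-α₀) α₀, κ α * J α ^ (1 / 12 : ℝ) ≤ ∫ α in Icc (-α₀) α₀, (l * κ α + 1 / l ^ 11 * (κ α * J α)) := by
        refine setIntegral_mono_on ?_ ?_ measurableSet_Icc fun α _ => hpt α
        · exact (hκ.mul hJc).continuousOn.integrableOn_compact isCompact_Icc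
        · exact ((continuous_const.mul hκ).add (continuous_const.mul (hκ.mul hJ))).continuousOn.integrableOn_compact isCompact_Icc
    _ = l * (∫ α in Icc (-α₀) α₀, κ α) + 1 / l ^ 11 * ∫ α in Icc (-α₀) α₀, κ α * J α := by
        rw [integral_add, integral_const_mul, integral_const_mul]
        · exact (continuous_const.mul hκ).continuousOn.integrableOn_compact isCompact_Icc
        · exact (continuous_const.mul (hκ.mul hJ)).continuousOn.integrableOn_compact isCompact_Icc
    _ ≤ l * 20 + 1 / l ^ 11 * l ^ 12 := by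
        have h2 : 0 ≤ 1 / l ^ 11 := by positivity
        have := mul_le_mul_of_nonneg_left hκ1 hl.le
        have := mul_le_mul_of_nonneg_left hJ1 h2
        linarith
    _ = 21 * l := by
        field_simp
        ring

end Pool.Agent.Helper78.LM
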