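import Mathlib

/-!
# LM-Glue: from dyadic blocks to one measurable majorant
-/

open MeasureTheory Real Set Filter Topology

set_option autoImplicit false

namespace Pool.Agent.Helper78.LM

private lemma log_eq78 {R : ℝ} {p : ℕ} (h1 : (2 : ℝ) ^ p ≤ R) (h2 : R < 2 ^ (p + 1)) : Nat.log 2 ⌊R⌋₊ = p := by
  have hR : 0 ≤ R := le_trans (by positivity) h1
  refine Nat.log_eq_of_pow_le_of_lt_pow ?_ ?_
  · rw [Nat.le_floor_iff hR]
    push_cast
    exact h1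
  · rw [Nat.floor_lt hR]
    push_cast
    exact h2

private lemma root78 {y : ℝ} (hy : 0 ≤ y) : (y ^ (1 / 12 : ℝ)) ^ 12 = y := by
  rw [← rpow_natCast, ← rpow_mul hy]
  norm_num

private lemma lu78 (s : Finset ℕ) (A : ℕ → Set ℝ) (F : ℝ → ENNReal) : ∫⁻ x in ⋃ p ∈ s, A p, F x ≤ ∑ p ∈ s, ∫⁻ x in A p, F x := by
  classical
  induction s using Finset.induction_on with
  | empty => simp
  | insert a s ha ih =>
    rw [Finset.set_biUnion_insert, Finset.sum_insert ha]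
    exact (lintegral_union_le _ _ _).trans (add_le_add le_rfl ih)

theorem glue {E : ℝ × ℝ → ℝ → ℝ} {Φ : ℕ → ℝ → ℝ} (hc : ∀ p, Continuous (Φ p)) (h0 : ∀ p R, 0 ≤ Φ p R) {C s : ℝ} (hC : 0 ≤ C) (hs : 1 ≤ s)
    (hI : ∀ p, ∫ R in Icc ((2 : ℝ) ^ p) (2 ^ (p + 1)), Φ p R ≤ C * ((2 : ℝ) ^ p) ^ s)
    (hE : ∀ (p : ℕ) (c : ℝ × ℝ), ∀ R ∈ Icc ((2 : ℝ) ^ p) (2 ^ (p + 1)), |E c R| ^ 12 ≤ Φ p R) :
    ∃ C : ℝ, ∃ G : ℝ → ℝ, Measurable G ∧ (∀ R : ℝ, 1 ≤ R → ∀ c : ℝ × ℝ, |E c R| ≤ G R) ∧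
      ∀ X : ℝ, 1 ≤ X → ∫⁻ R in Icc 1 X, ENNReal.ofReal (G R ^ 12) ≤ ENNReal.ofReal (C * X ^ s) := by
  obtain ⟨G, hG⟩ : ∃ G : ℝ → ℝ, G = fun R => Φ (Nat.log 2 ⌊R⌋₊) R ^ (1 / 12 : ℝ) := ⟨_, rfl⟩
  have hGm : Measurable G := by
    have h1 : Measurable fun q : ℕ × ℝ => Φ q.1 q.2 := measurable_from_prod_countable_right fun p => (hc p).measurable
    have h2 : Measurable fun R : ℝ => Nat.log 2 ⌊R⌋₊ := (measurable_from_nat (f := fun n => Nat.log 2 n)).comp Nat.measurable_floor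
    have h3 : Measurable fun R : ℝ => Φ (Nat.log 2 ⌊R⌋₊) R := h1.comp (h2.prodMk measurable_id)
    rw [hG]
    exact h3.pow_const _
  have hG12 : ∀ (p : ℕ), ∀ R ∈ Ico ((2 : ℝ) ^ p) (2 ^ (p + 1)), G R ^ 12 = Φ p R := by
    intro p R hR
    rw [hG]
    simp only
    rw [log_eq78 hR.1 hR.2, root78 (h0 p R)]
  refine ⟨2 * C, G, hGm, ?_, ?_⟩
  · intro R hR c
    obtain ⟨p, hp1, hp2⟩ := exists_nat_pow_near hR (show (1 : ℝ) < 2 by norm_num)
    have h1 := hE p c R ⟨hp1, hp2.le⟩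
    rw [hG]
    simp only
    rw [log_eq78 hp1 hp2]
    calc |E c R| = (|E c R| ^ 12) ^ (1 / 12 : ℝ) := by
          rw [← rpow_natCast, ← rpow_mul (abs_nonneg _)]
          norm_num
      _ ≤ Φ p R ^ (1 / 12 : ℝ) := rpow_le_rpow (by positivity) h1 (by norm_num)
  · intro X hX
    obtain ⟨P, hP1, hP2⟩ := exists_nat_pow_near hX (show (1 : ℝ) < 2 by norm_num)
    have hX0 : 0 < X := by linarith
    have hsub : Icc 1 X ⊆ ⋃ p ∈ Finset.range (P + 1), Ico ((2 : ℝ) ^ p) (2 ^ (p + 1)) := by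
      intro R hR
      obtain ⟨p, hp1, hp2⟩ := exists_nat_pow_near hR.1 (show (1 : ℝ) < 2 by norm_num)
      rw [mem_iUnion₂]
      refine ⟨p, ?_, hp1, hp2⟩
      rw [Finset.mem_range]
      have h1 : (2 : ℝ) ^ p < 2 ^ (P + 1) := lt_of_le_of_lt hp1 (lt_of_le_of_lt hR.2 hP2)
      exact (pow_lt_pow_iff_right₀ (by norm_num)).1 h1
    have hblk : ∀ p : ℕ, ∫⁻ R in Ico ((2 : ℝ) ^ p) (2 ^ (p + 1)), ENNReal.ofReal (G R ^ 12) ≤ ENNReal.ofReal (C * ((2 : ℝ) ^ p) ^ s) := by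
      intro p
      calc ∫⁻ R in Ico ((2 : ℝ) ^ p) (2 ^ (p + 1)), ENNReal.ofReal (G R ^ 12)
          = ∫⁻ R in Ico ((2 : ℝ) ^ p) (2 ^ (p + 1)), ENNReal.ofReal (Φ p R) :=
            setLIntegral_congr_fun measurableSet_Ico fun R hR => by
              rw [hG12 p R hR]
        _ ≤ ∫⁻ R in Icc ((2 : ℝ) ^ p) (2 ^ (p + 1)), ENNReal.ofReal (Φ p R) := lintegral_mono_set Ico_subset_Icc_self
        _ = ENNReal.ofReal (∫ R in Icc ((2 : ℝ) ^ p) (2 ^ (p + 1)), Φ p R) := by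
            rw [ofReal_integral_eq_lintegral_ofReal ((hc p).continuousOn.integrableOn_compact isCompact_Icc)
              (Eventually.of_forall fun R => h0 p R)]
        _ ≤ _ := ENNReal.ofReal_le_ofReal (hI p)
    calc ∫⁻ R in Icc 1 X, ENNReal.ofReal (G R ^ 12)
        ≤ ∫⁻ R in ⋃ p ∈ Finset.range (P + 1), Ico ((2 : ℝ) ^ p) (2 ^ (p + 1)), ENNReal.ofReal (G R ^ 12) := lintegral_mono_set hsub
      _ ≤ ∑ p ∈ Finset.range (P + 1), ∫⁻ R in Ico ((2 : ℝ) ^ p) (2 ^ (p + 1)), ENNReal.ofReal (G R ^ 12) := by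
          exact lu78 _ _ _
      _ ≤ ∑ p ∈ Finset.range (P + 1), ENNReal.ofReal (C * ((2 : ℝ) ^ p) ^ s) := Finset.sum_le_sum fun p _ => hblk p
      _ = ENNReal.ofReal (∑ p ∈ Finset.range (P + 1), C * ((2 : ℝ) ^ p) ^ s) := by
          rw [ENNReal.ofReal_sum_of_nonneg fun p _ => by positivity]
      _ ≤ ENNReal.ofReal (2 * C * X ^ s) := by
          refine ENNReal.ofReal_le_ofReal ?_
          have h1 : ∀ p ∈ Finset.range (P + 1), C * ((2 : ℝ) ^ p) ^ s ≤ C * ((2 : ℝ) ^ P) ^ (s - 1) * 2 ^ p := by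
            intro p hp
            have hp' : p ≤ P := Nat.lt_succ_iff.1 (Finset.mem_range.1 hp)
            have h2 : ((2 : ℝ) ^ p) ^ s = ((2 : ℝ) ^ p) ^ (s - 1) * 2 ^ p := by
              conv_rhs => rw [← rpow_one ((2 : ℝ) ^ p)]
              rw [rpow_one, ← rpow_add_one (by positivity)]
              congr 1
              ring
            rw [h2, mul_assoc]
            refine mul_le_mul_of_nonneg_left ?_ hC
            refine mul_le_mul_of_nonneg_right ?_ (by positivity)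
            exact rpow_le_rpow (by positivity) (pow_le_pow_right₀ (by norm_num) hp') (by linarith)
          have h3 : ∑ p ∈ Finset.range (P + 1), (2 : ℝ) ^ p ≤ 2 * 2 ^ P := by
            rw [geom_sum_eq (by norm_num)]
            rw [pow_succ]
            have : (0 : ℝ) ≤ 2 ^ P := by positivity
            linarith
          refine (Finset.sum_le_sum h1).trans ?_
          rw [← Finset.mul_sum]
          have h4 : ((2 : ℝ) ^ P) ^ (s - 1) * 2 ^ P = ((2 : ℝ) ^ P) ^ s := by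
            rw [← rpow_add_one (by positivity)]
            congr 1
            ring
          have h5 : ((2 : ℝ) ^ P) ^ s ≤ X ^ s := rpow_le_rpow (by positivity) hP1 (by linarith)
          calc C * ((2 : ℝ) ^ P) ^ (s - 1) * ∑ p ∈ Finset.range (P + 1), (2 : ℝ) ^ p
              ≤ C * ((2 : ℝ) ^ P) ^ (s - 1) * (2 * 2 ^ P) := mul_le_mul_of_nonneg_left h3 (by positivity)
            _ = 2 * C * (((2 : ℝ) ^ P) ^ (s - 1) * 2 ^ P) := by ring
            _ = 2 * C * ((2 : ℝ) ^ P) ^ s := by rw [h4]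
            _ ≤ 2 * C * X ^ s := mul_le_mul_of_nonneg_left h5 (by positivity)

end Pool.Agent.Helper78.LM
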