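import Pool.Agent.Helper22.OV.D2
import Pool.Agent.Helper22.LP.P1
import Pool.Agent.Helper22.LP.Loc
import Pool.Agent.Helper92.LA.C2
import Pool.Agent.Helper78.LM.Glue
import Pool.Agent.Helper78.LM.B

/-!
# LM-D: the twelfth mean over the radii, uniformly in the centre, for one frame and for almost every frame
-/

open MeasureTheory Real Set Filter Topology

set_option autoImplicit false

namespace Pool.Agent.Helper78.LM

open Pool.Agent.Helper22.AE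
open Pool.Agent.Helper22.AC (cntc ga)
open Pool.Agent.Helper22.OV (o3_k0_cont o3_k0_nonneg cntc_bdd)
open Pool.Agent.Helper92.GC (dt sqa)
open Pool.Agent.Helper22.LP (Fr fv fk fdet cp nr tr hom LS Hf Hf_isSupp nr_eq nr_pos)
open Pool.Agent.Helper22.LPL (lp_local)
open Pool.Agent.Helper92.LA

private lemma psum78 (m : ℕ) (y : ℕ → ℝ) (hy : ∀ i, 0 ≤ y i) : (∑ i ∈ Finset.range m, y i) ^ 12 ≤ (m : ℝ) ^ 11 * ∑ i ∈ Finset.range m, y i ^ 12 := by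
  rcases Nat.eq_zero_or_pos m with rfl | hm
  · simp
  have h1 := pow_sum_div_card_le_sum_pow (s := Finset.range m) (f := y) (fun i _ => hy i) 11
  rw [Finset.card_range, div_le_iff₀ (by positivity), mul_comm] at h1
  exact h1

private lemma mb78 {X N : ℝ} (hX : 1 ≤ X) (hN : 1 ≤ N) (hN2 : N ≤ X ^ (5 / 9 : ℝ)) : N ^ 3 * MB X N ≤ 3 * N ^ 18 := by
  have hX0 : 0 < X := by linarith
  have hN0 : 0 < N := by linarith
  unfold MB
  obtain ⟨x, rfl⟩ : ∃ x, X = exp x := ⟨log X, (exp_log hX0).symm⟩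
  obtain ⟨n, rfl⟩ : ∃ n, N = exp n := ⟨log N, (exp_log hN0).symm⟩
  have hx : 0 ≤ x := one_le_exp_iff.1 hX
  have hn : 0 ≤ n := one_le_exp_iff.1 hN
  rw [← exp_mul, exp_le_exp] at hN2
  have h3 : exp n ^ 3 = exp (3 * n) := by
    rw [← exp_nat_mul]
    norm_num
  have h12 : exp n ^ 12 = exp (12 * n) := by
    rw [← exp_nat_mul]
    norm_num
  have h18 : exp n ^ 18 = exp (18 * n) := by
    rw [← exp_nat_mul]
    norm_num
  have h22 : exp n ^ 22 = exp (22 * n) := by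
    rw [← exp_nat_mul]
    norm_num
  rw [h3, h12, h18, h22, ← exp_add x n, ← exp_mul, ← exp_mul, ← exp_add, ← exp_add]
  have e : exp (3 * n) * (exp (12 * n) + exp (18 * n + (x + n) * -(3 / 2)) + exp (22 * n + (x + n) * -(5 / 2))) =
      exp (3 * n + 12 * n) + exp (3 * n + (18 * n + (x + n) * -(3 / 2))) + exp (3 * n + (22 * n + (x + n) * -(5 / 2))) := by
    simp only [exp_add]
    ring
  rw [e]
  have t1 : exp (3 * n + 12 * n) ≤ exp (18 * n) := by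
    rw [exp_le_exp]
    linarith
  have t2 : exp (3 * n + (18 * n + (x + n) * -(3 / 2))) ≤ exp (18 * n) := by
    rw [exp_le_exp]
    nlinarith
  have t3 : exp (3 * n + (22 * n + (x + n) * -(5 / 2))) ≤ exp (18 * n) := by
    rw [exp_le_exp]
    nlinarith
  linarith

private theorem k0_mass78 {α₀ β : ℝ} (h0 : 0 < α₀) (h1 : α₀ < π / 2) (hβ : 0 < β) : ∫ α in Icc (-α₀) α₀, k0 β α ≤ 20 := by
  have hpi := Real.pi_pos
  have h2 := k0_int hβ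
  rw [intervalIntegral.integral_of_le (by linarith)] at h2
  refine le_trans (setIntegral_mono_set ?_ (Eventually.of_forall (o3_k0_nonneg hβ)) (Eventually.of_forall ?_)) h2
  · rw [← integrableOn_Icc_iff_integrableOn_Ioc]
    exact (o3_k0_cont hβ).continuousOn.integrableOn_compact isCompact_Icc
  · intro x hx
    exact ⟨by linarith [hx.1], by linarith [hx.2]⟩

private theorem fb78 {f : Fr} (hf : fdet f ≠ 0) : ∃ M : ℝ, 1 ≤ M ∧ Fb M f := by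
  have h0 : 0 < |fdet f| := abs_pos.2 hf
  refine ⟨1 + |f.1.1| + |f.1.2| + |f.2.1| + |f.2.2| + 1 / |fdet f|, ?_, ?_⟩
  · have := abs_nonneg f.1.1
    have := abs_nonneg f.1.2
    have := abs_nonneg f.2.1
    have := abs_nonneg f.2.2
    have : 0 ≤ 1 / |fdet f| := by positivity
    linarith
  · have h1 := abs_nonneg f.1.1
    have h2 := abs_nonneg f.1.2
    have h3 := abs_nonneg f.2.1
    have h4 := abs_nonneg f.2.2
    have h5 : 0 ≤ 1 / |fdet f| := by positivity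
    refine ⟨by linarith, by linarith, by linarith, by linarith, ?_⟩
    have h6 : 1 = 1 / |fdet f| * |fdet f| := by field_simp
    calc (1 : ℝ) = 1 / |fdet f| * |fdet f| := h6
      _ ≤ _ := mul_le_mul_of_nonneg_right (by linarith) h0.le

/-- the weight of a block -/
noncomputable def uw (X N : ℝ) : ℝ := X ^ (1 / 2 : ℝ) * N ^ (-(3 / 2) : ℝ) * 21

private lemma uw_pow {X N : ℝ} (hX : 0 < X) (hN : 0 < N) : uw X N ^ 12 = 21 ^ 12 * X ^ 6 / N ^ 18 := by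
  unfold uw
  have h1 : (X ^ (1 / 2 : ℝ)) ^ 12 = X ^ 6 := by
    rw [← rpow_natCast, ← rpow_mul hX.le, ← rpow_natCast]
    norm_num
  have h2 : (N ^ (-(3 / 2) : ℝ)) ^ 12 = (N ^ 18)⁻¹ := by
    rw [← rpow_natCast, ← rpow_mul hN.le, ← rpow_natCast, ← rpow_neg hN.le]
    norm_num
  rw [mul_pow, mul_pow, h1, h2]
  field_simp

/-- the majorant of the twelfth power on a dyadic interval -/
noncomputable def Fp (C₃ C₂ X : ℝ) (m : ℕ) (S : ℕ → ℝ → ℝ) (R : ℝ) : ℝ :=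
  C₃ ^ 12 * (2 ^ 11 * (X ^ 6 + (m : ℝ) ^ 11 * ∑ n ∈ Finset.range m,
    2 ^ 11 * (uw X ((2 ^ n : ℕ) : ℝ) ^ 12 * (C₂ * ((2 ^ n : ℕ) : ℝ) ^ 3 * S n R + 1) + 1)))

private lemma Fp_le {C₃ C₂ X : ℝ} (hC₃ : 0 ≤ C₃) (hC₂ : 0 ≤ C₂) (hX : 0 < X) (m : ℕ) {S : ℕ → ℝ → ℝ} {R : ℝ} (hS : ∀ n, 0 ≤ S n R) {E : ℝ}
    {I : ℕ → ℝ} (hI : ∀ n < m, I n ≤ 21 * (C₂ * ((2 ^ n : ℕ) : ℝ) ^ 3 * S n R + 1) ^ (1 / 12 : ℝ))
    (hE : |E| ≤ C₃ * (X ^ (1 / 2 : ℝ) + ∑ n ∈ Finset.range m, (X ^ (1 / 2 : ℝ) * ((2 ^ n : ℕ) : ℝ) ^ (-(3 / 2) : ℝ) * I n + 1))) :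
    |E| ^ 12 ≤ Fp C₃ C₂ X m S R := by
  obtain ⟨l, hl⟩ : ∃ l : ℕ → ℝ, ∀ n, l n = (C₂ * ((2 ^ n : ℕ) : ℝ) ^ 3 * S n R + 1) ^ (1 / 12 : ℝ) := ⟨_, fun _ => rfl⟩
  have hbase : ∀ n, 0 ≤ C₂ * ((2 ^ n : ℕ) : ℝ) ^ 3 * S n R + 1 := by
    intro n
    have h1 := hS n
    positivity
  have hl0 : ∀ n, 0 ≤ l n := by
    intro n
    rw [hl]
    exact rpow_nonneg (hbase n) _
  have hl12 : ∀ n, l n ^ 12 = C₂ * ((2 ^ n : ℕ) : ℝ) ^ 3 * S n R + 1 := by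
    intro n
    rw [hl, ← rpow_natCast, ← rpow_mul (hbase n)]
    norm_num
  have hu0 : ∀ n : ℕ, 0 ≤ uw X ((2 ^ n : ℕ) : ℝ) := by
    intro n
    unfold uw
    positivity
  have hX2 : (X ^ (1 / 2 : ℝ)) ^ 12 = X ^ 6 := by
    rw [← rpow_natCast, ← rpow_mul hX.le, ← rpow_natCast]
    norm_num
  have h1 : ∑ n ∈ Finset.range m, (X ^ (1 / 2 : ℝ) * ((2 ^ n : ℕ) : ℝ) ^ (-(3 / 2) : ℝ) * I n + 1) ≤
      ∑ n ∈ Finset.range m, (uw X ((2 ^ n : ℕ) : ℝ) * l n + 1) := by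
    refine Finset.sum_le_sum fun n hn => ?_
    have h2 := hI n (Finset.mem_range.1 hn)
    rw [← hl] at h2
    have h3 : 0 ≤ X ^ (1 / 2 : ℝ) * ((2 ^ n : ℕ) : ℝ) ^ (-(3 / 2) : ℝ) := by positivity
    have h4 := mul_le_mul_of_nonneg_left h2 h3
    have h5 : X ^ (1 / 2 : ℝ) * ((2 ^ n : ℕ) : ℝ) ^ (-(3 / 2) : ℝ) * (21 * l n) = uw X ((2 ^ n : ℕ) : ℝ) * l n := by
      unfold uw
      ring
    rw [h5] at h4
    linarith
  have hX0 : 0 ≤ X ^ (1 / 2 : ℝ) := by positivity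
  have hs0 : 0 ≤ ∑ n ∈ Finset.range m, (uw X ((2 ^ n : ℕ) : ℝ) * l n + 1) :=
    Finset.sum_nonneg fun n _ => by
      have := mul_nonneg (hu0 n) (hl0 n)
      linarith
  have h2 : |E| ≤ C₃ * (X ^ (1 / 2 : ℝ) + ∑ n ∈ Finset.range m, (uw X ((2 ^ n : ℕ) : ℝ) * l n + 1)) :=
    hE.trans (mul_le_mul_of_nonneg_left (by linarith) hC₃)
  have h3 : |E| ^ 12 ≤ C₃ ^ 12 * (X ^ (1 / 2 : ℝ) + ∑ n ∈ Finset.range m, (uw X ((2 ^ n : ℕ) : ℝ) * l n + 1)) ^ 12 := by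
    have h4 := pow_le_pow_left₀ (abs_nonneg E) h2 12
    rwa [mul_pow] at h4
  have h4 := add_pow_le hX0 hs0 12
  have h5 := psum78 m (fun n => uw X ((2 ^ n : ℕ) : ℝ) * l n + 1) (fun n => by
    have := mul_nonneg (hu0 n) (hl0 n)
    linarith)
  have h6 : ∑ n ∈ Finset.range m, (uw X ((2 ^ n : ℕ) : ℝ) * l n + 1) ^ 12 ≤
      ∑ n ∈ Finset.range m, 2 ^ 11 * (uw X ((2 ^ n : ℕ) : ℝ) ^ 12 * (C₂ * ((2 ^ n : ℕ) : ℝ) ^ 3 * S n R + 1) + 1) := by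
    refine Finset.sum_le_sum fun n _ => ?_
    have h7 := add_pow_le (mul_nonneg (hu0 n) (hl0 n)) (show (0 : ℝ) ≤ 1 by norm_num) 12
    rw [mul_pow, hl12, one_pow] at h7
    exact h7
  unfold Fp
  refine h3.trans (mul_le_mul_of_nonneg_left ?_ (by positivity))
  rw [hX2] at h4
  refine h4.trans ?_
  refine mul_le_mul_of_nonneg_left ?_ (by positivity)
  have h8 := mul_le_mul_of_nonneg_left h6 (show (0 : ℝ) ≤ (m : ℝ) ^ 11 by positivity)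
  linarith

private lemma Fp_cont (C₃ C₂ X : ℝ) (m : ℕ) {S : ℕ → ℝ → ℝ} (hS : ∀ n, Continuous (S n)) : Continuous (Fp C₃ C₂ X m S) := by
  unfold Fp
  refine continuous_const.mul (continuous_const.mul (continuous_const.add (continuous_const.mul ?_)))
  refine continuous_finsetSum _ fun n _ => ?_
  exact continuous_const.mul ((continuous_const.mul ((continuous_const.mul (hS n)).add continuous_const)).add continuous_const)

private lemma Fp_nonneg {C₃ C₂ X : ℝ} (hC₂ : 0 ≤ C₂) (hX : 0 ≤ X) (m : ℕ) {S : ℕ → ℝ → ℝ} (R : ℝ) (hS : ∀ n, 0 ≤ S n R) :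
    0 ≤ Fp C₃ C₂ X m S R := by
  unfold Fp
  have hC3 : 0 ≤ C₃ ^ 12 := by positivity
  have h1 : 0 ≤ ∑ n ∈ Finset.range m, 2 ^ 11 * (uw X ((2 ^ n : ℕ) : ℝ) ^ 12 * (C₂ * ((2 ^ n : ℕ) : ℝ) ^ 3 * S n R + 1) + 1) := by
    refine Finset.sum_nonneg fun n _ => ?_
    have h2 := hS n
    have h3 : 0 ≤ uw X ((2 ^ n : ℕ) : ℝ) := by
      unfold uw
      positivity
    positivity
  have h2 : 0 ≤ (m : ℝ) ^ 11 * ∑ n ∈ Finset.range m, 2 ^ 11 * (uw X ((2 ^ n : ℕ) : ℝ) ^ 12 * (C₂ * ((2 ^ n : ℕ) : ℝ) ^ 3 * S n R + 1) + 1) :=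
    mul_nonneg (by positivity) h1
  have h3 : 0 ≤ X ^ 6 := by positivity
  exact mul_nonneg hC3 (mul_nonneg (by norm_num) (add_nonneg h3 h2))

private lemma Fp_int {C₃ C₂ X : ℝ} (hC₂ : 0 ≤ C₂) (hX : 1 ≤ X) (m : ℕ) {S : ℕ → ℝ → ℝ} (hS : ∀ n, Continuous (S n))
    {C₁ e : ℝ} (hC₁ : 0 ≤ C₁) (he : 0 < e) (hm : (m : ℝ) ≤ (2 / e + 1) * X ^ e) (hN : ∀ n < m, ((2 ^ n : ℕ) : ℝ) ≤ X ^ (5 / 9 : ℝ))
    (hI : ∀ n < m, ∫ R in Icc X (2 * X), S n R ≤ 3 * (C₁ * (X ^ (1 + e) * MB X ((2 ^ n : ℕ) : ℝ)))) :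
    ∫ R in Icc X (2 * X), Fp C₃ C₂ X m S R ≤
      C₃ ^ 12 * (2 ^ 11 * (1 + (2 / e + 1) ^ 12 * (2 ^ 11 * (21 ^ 12 * (9 * C₁ * C₂ + 2))))) * X ^ (7 + 13 * e) := by
  have hX0 : 0 < X := by linarith
  have hvol : (volume (Icc X (2 * X))).toReal = X := by
    rw [Real.volume_Icc, ENNReal.toReal_ofReal (by linarith)]
    ring
  have hSi : ∀ n, IntegrableOn (S n) (Icc X (2 * X)) := fun n => (hS n).continuousOn.integrableOn_compact isCompact_Icc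
  have hconst : ∀ c : ℝ, ∫ _R in Icc X (2 * X), c = c * X := by
    intro c
    rw [setIntegral_const, Measure.real, hvol, smul_eq_mul, mul_comm]
  have hci : ∀ c : ℝ, IntegrableOn (fun _ : ℝ => c) (Icc X (2 * X)) := fun c => continuousOn_const.integrableOn_compact isCompact_Icc
  obtain ⟨T, hT⟩ : ∃ T : ℕ → ℝ → ℝ, T = fun n R => 2 ^ 11 * (uw X ((2 ^ n : ℕ) : ℝ) ^ 12 * (C₂ * ((2 ^ n : ℕ) : ℝ) ^ 3 * S n R + 1) + 1) := ⟨_, rfl⟩
  have hTc : ∀ n, Continuous (T n) := by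
    intro n
    rw [hT]
    exact continuous_const.mul ((continuous_const.mul ((continuous_const.mul (hS n)).add continuous_const)).add continuous_const)
  have hTi : ∀ n, IntegrableOn (T n) (Icc X (2 * X)) := fun n => (hTc n).continuousOn.integrableOn_compact isCompact_Icc
  -- one block
  have hblk : ∀ n < m, ∫ R in Icc X (2 * X), T n R ≤ 2 ^ 11 * (21 ^ 12 * (9 * C₁ * C₂ + 2)) * X ^ (7 + e) := by
    intro n hn
    obtain ⟨N, hNd⟩ : ∃ N : ℝ, N = ((2 ^ n : ℕ) : ℝ) := ⟨_, rfl⟩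
    have hN1 : 1 ≤ N := by
      rw [hNd]
      exact_mod_cast Nat.one_le_two_pow
    have hN0 : 0 < N := by linarith
    have h1 : ∫ R in Icc X (2 * X), T n R = 2 ^ 11 * (uw X N ^ 12 * (C₂ * N ^ 3 * (∫ R in Icc X (2 * X), S n R) + X) + X) := by
      rw [hT]
      simp only
      rw [← hNd]
      have a1 : ∫ R in Icc X (2 * X), (C₂ * N ^ 3 * S n R + 1) = C₂ * N ^ 3 * (∫ R in Icc X (2 * X), S n R) + X := by
        rw [integral_add ((hSi n).const_mul _) (hci 1), integral_const_mul, hconst, one_mul]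
      have a2 : ∫ R in Icc X (2 * X), (uw X N ^ 12 * (C₂ * N ^ 3 * S n R + 1) + 1) =
          uw X N ^ 12 * (C₂ * N ^ 3 * (∫ R in Icc X (2 * X), S n R) + X) + X := by
        have hA : IntegrableOn (fun R => uw X N ^ 12 * (C₂ * N ^ 3 * S n R + 1)) (Icc X (2 * X)) :=
          (continuous_const.mul ((continuous_const.mul (hS n)).add continuous_const)).continuousOn.integrableOn_compact isCompact_Icc
        rw [integral_add hA (hci 1), integral_const_mul, a1, hconst, one_mul]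
      rw [integral_const_mul, a2]
    have h2 := hI n hn
    rw [← hNd] at h2
    have h3 := mb78 hX hN1 (by rw [hNd]; exact hN n hn)
    have h4 : C₂ * N ^ 3 * (∫ R in Icc X (2 * X), S n R) ≤ 9 * C₁ * C₂ * (X ^ (1 + e) * N ^ 18) := by
      calc C₂ * N ^ 3 * (∫ R in Icc X (2 * X), S n R) ≤ C₂ * N ^ 3 * (3 * (C₁ * (X ^ (1 + e) * MB X N))) :=
            mul_le_mul_of_nonneg_left h2 (by positivity)
        _ = 3 * C₁ * C₂ * X ^ (1 + e) * (N ^ 3 * MB X N) := by ring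
        _ ≤ 3 * C₁ * C₂ * X ^ (1 + e) * (3 * N ^ 18) := mul_le_mul_of_nonneg_left h3 (by positivity)
        _ = _ := by ring
    have h5 : uw X N ^ 12 * (9 * C₁ * C₂ * (X ^ (1 + e) * N ^ 18)) = 21 ^ 12 * (9 * C₁ * C₂) * X ^ (7 + e) := by
      rw [uw_pow hX0 hN0]
      have h6 : X ^ (7 + e) = X ^ 6 * X ^ (1 + e) := by
        rw [← rpow_natCast X 6, ← rpow_add hX0]
        congr 1
        push_cast
        ring
      rw [h6]
      field_simp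
    have h6 : uw X N ^ 12 * X ≤ 21 ^ 12 * X ^ (7 + e) := by
      rw [uw_pow hX0 hN0]
      have h7 : X ^ 6 * X ≤ X ^ (7 + e) := by
        have h8 : X ^ 6 * X = X ^ (7 : ℝ) := by
          rw [← pow_succ, ← rpow_natCast]
          norm_num
        rw [h8]
        exact rpow_le_rpow_of_exponent_le hX (by linarith)
      have h9 : (1 : ℝ) ≤ N ^ 18 := one_le_pow₀ hN1
      have h10 : 21 ^ 12 * X ^ 6 / N ^ 18 ≤ 21 ^ 12 * X ^ 6 := div_le_self (by positivity) h9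
      calc 21 ^ 12 * X ^ 6 / N ^ 18 * X ≤ 21 ^ 12 * X ^ 6 * X := mul_le_mul_of_nonneg_right h10 hX0.le
        _ = 21 ^ 12 * (X ^ 6 * X) := by ring
        _ ≤ _ := mul_le_mul_of_nonneg_left h7 (by positivity)
    have h7 : X ≤ 21 ^ 12 * X ^ (7 + e) := by
      have h8 : X ≤ X ^ (7 + e) := by
        calc X = X ^ (1 : ℝ) := (rpow_one X).symm
          _ ≤ X ^ (7 + e) := rpow_le_rpow_of_exponent_le hX (by linarith)
      have h9 : X ^ (7 + e) ≤ 21 ^ 12 * X ^ (7 + e) := le_mul_of_one_le_left (by positivity) (by norm_num)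
      linarith
    have h8 : 0 ≤ uw X N ^ 12 := by
      rw [uw_pow hX0 hN0]
      positivity
    have h9 := mul_le_mul_of_nonneg_left h4 h8
    rw [h1]
    have h10 : uw X N ^ 12 * (C₂ * N ^ 3 * (∫ R in Icc X (2 * X), S n R) + X) + X ≤ 21 ^ 12 * (9 * C₁ * C₂ + 2) * X ^ (7 + e) := by
      rw [mul_add]
      rw [h5] at h9
      have h11 : 21 ^ 12 * (9 * C₁ * C₂ + 2) * X ^ (7 + e) = 21 ^ 12 * (9 * C₁ * C₂) * X ^ (7 + e) + 21 ^ 12 * X ^ (7 + e) + 21 ^ 12 * X ^ (7 + e) := by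
        ring
      rw [h11]
      linarith
    have h12 := mul_le_mul_of_nonneg_left h10 (show (0 : ℝ) ≤ 2 ^ 11 by positivity)
    refine h12.trans (le_of_eq ?_)
    ring
  -- the sum
  have h1 : ∫ R in Icc X (2 * X), Fp C₃ C₂ X m S R =
      C₃ ^ 12 * (2 ^ 11 * (X ^ 6 * X + (m : ℝ) ^ 11 * ∑ n ∈ Finset.range m, ∫ R in Icc X (2 * X), T n R)) := by
    have hsi : IntegrableOn (fun R => ∑ n ∈ Finset.range m, T n R) (Icc X (2 * X)) :=
      (continuous_finsetSum _ fun n _ => hTc n).continuousOn.integrableOn_compact isCompact_Icc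
    have e1 : (fun R => Fp C₃ C₂ X m S R) = fun R => C₃ ^ 12 * (2 ^ 11 * (X ^ 6 + (m : ℝ) ^ 11 * ∑ n ∈ Finset.range m, T n R)) := by
      funext R
      rw [hT]
      rfl
    rw [e1, integral_const_mul, integral_const_mul, integral_add (hci _) (hsi.const_mul _), hconst, integral_const_mul,
      integral_finsetSum _ fun n _ => hTi n]
  have h2 : ∑ n ∈ Finset.range m, ∫ R in Icc X (2 * X), T n R ≤ m * (2 ^ 11 * (21 ^ 12 * (9 * C₁ * C₂ + 2)) * X ^ (7 + e)) := by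
    have h3 := Finset.sum_le_sum fun n (hn : n ∈ Finset.range m) => hblk n (Finset.mem_range.1 hn)
    rwa [Finset.sum_const, Finset.card_range, nsmul_eq_mul] at h3
  have h3 : (m : ℝ) ^ 12 ≤ (2 / e + 1) ^ 12 * X ^ (12 * e) := by
    have h4 := pow_le_pow_left₀ (Nat.cast_nonneg m) hm 12
    rw [mul_pow] at h4
    have h5 : (X ^ e) ^ 12 = X ^ (12 * e) := by
      rw [← rpow_natCast, ← rpow_mul hX0.le]
      congr 1
      push_cast
      ring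
    rwa [h5] at h4
  have h4 : (m : ℝ) ^ 11 * ∑ n ∈ Finset.range m, ∫ R in Icc X (2 * X), T n R ≤
      (2 / e + 1) ^ 12 * (2 ^ 11 * (21 ^ 12 * (9 * C₁ * C₂ + 2))) * X ^ (7 + 13 * e) := by
    have h5 := mul_le_mul_of_nonneg_left h2 (show (0 : ℝ) ≤ (m : ℝ) ^ 11 by positivity)
    have h6 : X ^ (12 * e) * X ^ (7 + e) = X ^ (7 + 13 * e) := by
      rw [← rpow_add hX0]
      congr 1
      ring
    calc (m : ℝ) ^ 11 * ∑ n ∈ Finset.range m, ∫ R in Icc X (2 * X), T n R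
        ≤ (m : ℝ) ^ 11 * (m * (2 ^ 11 * (21 ^ 12 * (9 * C₁ * C₂ + 2)) * X ^ (7 + e))) := h5
      _ = (m : ℝ) ^ 12 * (2 ^ 11 * (21 ^ 12 * (9 * C₁ * C₂ + 2)) * X ^ (7 + e)) := by ring
      _ ≤ (2 / e + 1) ^ 12 * X ^ (12 * e) * (2 ^ 11 * (21 ^ 12 * (9 * C₁ * C₂ + 2)) * X ^ (7 + e)) :=
          mul_le_mul_of_nonneg_right h3 (by positivity)
      _ = (2 / e + 1) ^ 12 * (2 ^ 11 * (21 ^ 12 * (9 * C₁ * C₂ + 2))) * (X ^ (12 * e) * X ^ (7 + e)) := by ring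
      _ = _ := by rw [h6]
  have h5 : X ^ 6 * X ≤ X ^ (7 + 13 * e) := by
    have h8 : X ^ 6 * X = X ^ (7 : ℝ) := by
      rw [← pow_succ, ← rpow_natCast]
      norm_num
    rw [h8]
    exact rpow_le_rpow_of_exponent_le hX (by linarith)
  rw [h1]
  have h6 : X ^ 6 * X + (m : ℝ) ^ 11 * ∑ n ∈ Finset.range m, ∫ R in Icc X (2 * X), T n R ≤
      (1 + (2 / e + 1) ^ 12 * (2 ^ 11 * (21 ^ 12 * (9 * C₁ * C₂ + 2)))) * X ^ (7 + 13 * e) := by
    have : (1 + (2 / e + 1) ^ 12 * (2 ^ 11 * (21 ^ 12 * (9 * C₁ * C₂ + 2)))) * X ^ (7 + 13 * e) =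
        X ^ (7 + 13 * e) + (2 / e + 1) ^ 12 * (2 ^ 11 * (21 ^ 12 * (9 * C₁ * C₂ + 2))) * X ^ (7 + 13 * e) := by ring
    rw [this]
    linarith
  have h7 := mul_le_mul_of_nonneg_left (mul_le_mul_of_nonneg_left h6 (show (0 : ℝ) ≤ 2 ^ 11 by positivity))
    (show (0 : ℝ) ≤ C₃ ^ 12 by positivity)
  refine h7.trans (le_of_eq ?_)
  ring

/-- one frame -/
theorem frame_mean {H : ℝ → ℝ} (hH : IsSupp H) {α₀ B : ℝ} (ha0 : 0 < α₀) (ha1 : α₀ < π / 2)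
    (hjc : Continuous fun q : ℝ × (ℝ × ℝ) => hom (ga H q.1) q.2)
    (hfam : ∀ α ∈ Icc (-α₀) α₀, HL B (hom (ga H α)) ∧ WL B (Pool.Agent.Helper22.LP.wr H α) ∧ WL B (fun _ => 1)) {f : Fr} (hf : fdet f ≠ 0)
    {e : ℝ} (he : 0 < e) (he1 : e ≤ 1 / 1000) {C₁ : ℝ} (hC₁ : 0 ≤ C₁)
    (hJ : ∀ p n : ℕ, n ≤ p → ∫ α in Icc (-α₀) α₀, k0 (1 / sqrt ((2 : ℝ) ^ p * ((2 ^ n : ℕ) : ℝ))) α * JJ f (hom (ga H α)) ((2 : ℝ) ^ p) (2 ^ n) ≤
      C₁ * (((2 : ℝ) ^ p) ^ (1 + e) * MB ((2 : ℝ) ^ p) (2 ^ n))) :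
    ∃ C : ℝ, ∃ G : ℝ → ℝ, Measurable G ∧ (∀ R : ℝ, 1 ≤ R → ∀ c : ℝ × ℝ, |cntc (Hf H f) c R - area (Hf H f) * R ^ 2| ≤ G R) ∧
      ∀ X : ℝ, 1 ≤ X → ∫⁻ R in Icc 1 X, ENNReal.ofReal (G R ^ 12) ≤ ENNReal.ofReal (C * X ^ (7 + 13 * e)) := by
  obtain ⟨M, hM, hfb⟩ := fb78 hf
  obtain ⟨C₂, hC₂, hls⟩ := ls_loc (M := M) (B := B) hM
  obtain ⟨C₃, R₁, hC₃, hR₁, hlp⟩ := lp_local hH hf (τ := 1 / 2) (e2 := e) (by norm_num) (by norm_num) he ha0 ha1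
  obtain ⟨R₂, hR₂⟩ : ∃ R₂ : ℝ, R₂ = max R₁ 2 := ⟨_, rfl⟩
  obtain ⟨C₄, hC₄⟩ := cntc_bdd (Hf_isSupp hH hf) (2 * R₂)
  obtain ⟨m, hm⟩ : ∃ m : ℕ → ℕ, ∀ p, m p = ⌈(1 / 2 + e) * (p : ℝ)⌉₊ := ⟨_, fun _ => rfl⟩
  obtain ⟨S, hS⟩ : ∃ S : ℕ → ℕ → ℝ → ℝ, ∀ p n, S p n =
    Sl f (fun α => hom (ga H α)) α₀ (k0 (1 / sqrt ((2 : ℝ) ^ p * ((2 ^ n : ℕ) : ℝ)))) (2 ^ n) := ⟨_, fun _ _ => rfl⟩
  have hβ : ∀ p n : ℕ, 0 < 1 / sqrt ((2 : ℝ) ^ p * ((2 ^ n : ℕ) : ℝ)) := by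
    intro p n
    have : (0 : ℝ) < ((2 ^ n : ℕ) : ℝ) := by exact_mod_cast Nat.one_le_two_pow
    positivity
  have hSc : ∀ p n, Continuous (S p n) := by
    intro p n
    rw [hS]
    exact Sl_cont hjc f α₀ (o3_k0_cont (hβ p n)) _
  have hS0 : ∀ p n R, 0 ≤ S p n R := by
    intro p n R
    rw [hS]
    exact Sl_nonneg _ _ _ (o3_k0_nonneg (hβ p n)) _ _
  classical
  obtain ⟨Φ, hΦ⟩ : ∃ Φ : ℕ → ℝ → ℝ, Φ = fun p => if R₂ ≤ (2 : ℝ) ^ p then Fp C₃ C₂ ((2 : ℝ) ^ p) (m p) (S p) else fun _ => |C₄| ^ 12 := ⟨_, rfl⟩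
  have hΦ1 : ∀ p, R₂ ≤ (2 : ℝ) ^ p → Φ p = Fp C₃ C₂ ((2 : ℝ) ^ p) (m p) (S p) := by
    intro p hp
    rw [hΦ]
    exact if_pos hp
  have hΦ2 : ∀ p, ¬R₂ ≤ (2 : ℝ) ^ p → Φ p = fun _ => |C₄| ^ 12 := by
    intro p hp
    rw [hΦ]
    exact if_neg hp
  have hXe : ∀ p : ℕ, (1 : ℝ) ≤ 2 ^ p := fun p => one_le_pow₀ (by norm_num)
  have hXp : ∀ (p : ℕ) (y : ℝ), ((2 : ℝ) ^ p) ^ y = (2 : ℝ) ^ (p * y) := by
    intro p y
    rw [← rpow_natCast 2 p, ← rpow_mul (by norm_num)]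
  have hmb : ∀ (p : ℕ), ∀ n < m p, (n : ℝ) < (1 / 2 + e) * p := by
    intro p n hn
    rw [hm] at hn
    exact Nat.lt_ceil.1 hn
  have hmp : ∀ (p : ℕ), ∀ n < m p, n ≤ p := by
    intro p n hn
    have h1 := hmb p n hn
    have h2 : (1 / 2 + e) * (p : ℝ) ≤ 1 * p := mul_le_mul_of_nonneg_right (by linarith) (Nat.cast_nonneg p)
    have h3 : (n : ℝ) < p := by linarith
    exact_mod_cast h3.le
  have hmN : ∀ (p : ℕ), ∀ n < m p, ((2 ^ n : ℕ) : ℝ) ≤ ((2 : ℝ) ^ p) ^ (5 / 9 : ℝ) := by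
    intro p n hn
    push_cast
    rw [hXp, ← rpow_natCast]
    refine rpow_le_rpow_of_exponent_le (by norm_num) ?_
    have h1 := hmb p n hn
    have h2 : (1 / 2 + e) * (p : ℝ) ≤ 5 / 9 * p := mul_le_mul_of_nonneg_right (by linarith) (Nat.cast_nonneg p)
    linarith
  have hmc : ∀ p : ℕ, (m p : ℝ) ≤ (2 / e + 1) * ((2 : ℝ) ^ p) ^ e := by
    intro p
    obtain ⟨X, hX⟩ : ∃ X : ℝ, X = (2 : ℝ) ^ p := ⟨_, rfl⟩
    have hX1 : 1 ≤ X := by
      rw [hX]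
      exact hXe p
    have hX0 : 0 < X := by linarith
    rw [← hX]
    have h1 : (m p : ℝ) < (1 / 2 + e) * p + 1 := by
      rw [hm]
      exact Nat.ceil_lt_add_one (by positivity)
    have h2 : log X ≤ X ^ e / e := log_le_rpow_div hX0.le he
    have h3 : (1 : ℝ) / 2 < log 2 := by
      have := log_two_gt_d9
      linarith
    have h4 : log X = p * log 2 := by
      rw [hX, log_pow]
    have h5 : (p : ℝ) * (1 / 2) ≤ X ^ e / e := by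
      have : (p : ℝ) * (1 / 2) ≤ p * log 2 := mul_le_mul_of_nonneg_left h3.le (Nat.cast_nonneg p)
      linarith
    have h6 : 1 ≤ X ^ e := one_le_rpow hX1 he.le
    have h7 : (1 / 2 + e) * (p : ℝ) ≤ 1 * p := mul_le_mul_of_nonneg_right (by linarith) (Nat.cast_nonneg p)
    have h8 : 2 / e * X ^ e = 2 * (X ^ e / e) := by ring
    linarith
  obtain ⟨K, hK⟩ : ∃ K : ℝ, K = C₃ ^ 12 * (2 ^ 11 * (1 + (2 / e + 1) ^ 12 * (2 ^ 11 * (21 ^ 12 * (9 * C₁ * C₂ + 2))))) := ⟨_, rfl⟩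
  have hK0 : 0 ≤ K := by
    rw [hK]
    positivity
  refine glue (E := fun c R => cntc (Hf H f) c R - area (Hf H f) * R ^ 2) (Φ := Φ) ?_ ?_ (C := K + |C₄| ^ 12) (s := 7 + 13 * e) (by positivity)
    (by linarith) ?_ ?_
  · -- continuity
    intro p
    by_cases hp : R₂ ≤ (2 : ℝ) ^ p
    · rw [hΦ1 p hp]
      exact Fp_cont _ _ _ _ (hSc p)
    · rw [hΦ2 p hp]
      exact continuous_const
  · -- nonnegative
    intro p R
    by_cases hp : R₂ ≤ (2 : ℝ) ^ p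
    · rw [hΦ1 p hp]
      exact Fp_nonneg hC₂.le (by positivity) _ _ fun n => hS0 p n R
    · rw [hΦ2 p hp]
      positivity
  · -- the integral
    intro p
    have e2 : (2 : ℝ) ^ (p + 1) = 2 * 2 ^ p := by
      rw [pow_succ]
      ring
    have hX1 := hXe p
    have hs0 : 0 ≤ ((2 : ℝ) ^ p) ^ (7 + 13 * e) := by positivity
    rw [e2]
    by_cases hp : R₂ ≤ (2 : ℝ) ^ p
    · rw [hΦ1 p hp]
      have hX2 : (2 : ℝ) ≤ 2 ^ p := (by rw [hR₂]; exact le_max_right _ _ : (2 : ℝ) ≤ R₂).trans hp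
      have h1 := Fp_int (C₃ := C₃) (C₂ := C₂) hC₂.le hX1 (m p) (hSc p) hC₁ he (hmc p) (hmN p) (fun n hn => by
        have h2 := Sl_mean (h := fun α => hom (ga H α)) hjc f α₀ (o3_k0_cont (hβ p n)) (o3_k0_nonneg (hβ p n)) (2 ^ n) hX2
        rw [hS]
        refine h2.trans ?_
        have h3 := hJ p n (hmp p n hn)
        have h4 : ((2 ^ n : ℕ) : ℝ) = (2 : ℝ) ^ n := by push_cast; rfl
        rw [h4] at h3 ⊢
        linarith)
      rw [← hK] at h1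
      refine h1.trans ?_
      refine mul_le_mul_of_nonneg_right ?_ hs0
      have : 0 ≤ |C₄| ^ 12 := by positivity
      linarith
    · rw [hΦ2 p hp, setIntegral_const, Measure.real, Real.volume_Icc, ENNReal.toReal_ofReal (by linarith), smul_eq_mul]
      have h1 : (2 : ℝ) ^ p ≤ ((2 : ℝ) ^ p) ^ (7 + 13 * e) := by
        calc (2 : ℝ) ^ p = ((2 : ℝ) ^ p) ^ (1 : ℝ) := (rpow_one _).symm
          _ ≤ _ := rpow_le_rpow_of_exponent_le hX1 (by linarith)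
      have h2 : 0 ≤ |C₄| ^ 12 := by positivity
      calc (2 * (2 : ℝ) ^ p - 2 ^ p) * |C₄| ^ 12 = |C₄| ^ 12 * 2 ^ p := by ring
        _ ≤ |C₄| ^ 12 * ((2 : ℝ) ^ p) ^ (7 + 13 * e) := mul_le_mul_of_nonneg_left h1 h2
        _ ≤ (K + |C₄| ^ 12) * ((2 : ℝ) ^ p) ^ (7 + 13 * e) := mul_le_mul_of_nonneg_right (by linarith) hs0
  · -- the pointwise bound
    intro p c R hR
    have e2 : (2 : ℝ) ^ (p + 1) = 2 * 2 ^ p := by
      rw [pow_succ]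
      ring
    have hX1 := hXe p
    rw [e2] at hR
    by_cases hp : R₂ ≤ (2 : ℝ) ^ p
    · rw [hΦ1 p hp]
      have hXR1 : R₁ ≤ (2 : ℝ) ^ p := (by rw [hR₂]; exact le_max_left _ _ : R₁ ≤ R₂).trans hp
      have hX0 : (0 : ℝ) < 2 ^ p := by positivity
      have hn1 : ((2 : ℝ) ^ p) ^ (1 / 2 + e) ≤ 2 ^ (m p) := by
        rw [hXp, ← rpow_natCast]
        refine rpow_le_rpow_of_exponent_le (by norm_num) ?_
        rw [hm, mul_comm]
        exact Nat.le_ceil _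
      -- the functions
      obtain ⟨J, hJd⟩ : ∃ J : ℕ → ℝ → ℝ, ∀ n α, J n α = C₂ * ((2 ^ n : ℕ) : ℝ) ^ 3 * Jl f (hom (ga H α)) (2 ^ n) R := ⟨_, fun _ _ => rfl⟩
      have hJc : ∀ n, Continuous (J n) := by
        intro n
        have h1 := (Jl_cont (h := fun α => hom (ga H α)) hjc f (2 ^ n)).comp
          (show Continuous fun α : ℝ => ((α, R) : ℝ × ℝ) by fun_prop)
        have h2 : J n = fun α => C₂ * ((2 ^ n : ℕ) : ℝ) ^ 3 * Jl f (hom (ga H α)) (2 ^ n) R := funext (hJd n)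
        rw [h2]
        exact continuous_const.mul h1
      have hJ0 : ∀ n α, 0 ≤ J n α := by
        intro n α
        rw [hJd]
        exact mul_nonneg (by positivity) (Jl_nonneg _ _ _ _)
      have key : ∀ (n : ℕ) (α z : ℝ), 0 ≤ z → z ^ 12 ≤ J n α → z ≤ J n α ^ (1 / 12 : ℝ) := by
        intro n α z hz h
        calc z = (z ^ 12) ^ (1 / 12 : ℝ) := by
              rw [← rpow_natCast, ← rpow_mul hz]
              norm_num
          _ ≤ J n α ^ (1 / 12 : ℝ) := rpow_le_rpow (by positivity) h (by norm_num)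
      have hmain := hlp ((2 : ℝ) ^ p) hXR1 (m p) hn1 R hR (fun n α => J n α ^ (1 / 12 : ℝ))
        (fun n _ => ((hJc n).rpow_const fun _ => Or.inr (by norm_num)).continuousOn.integrableOn_compact isCompact_Icc)
        (fun n hn α hα r _ hrR c => by
          obtain ⟨hHL, hW1, hW2⟩ := hfam α hα
          refine ⟨key n α _ (norm_nonneg _) ?_, key n α _ (norm_nonneg _) ?_⟩
          · rw [hJd]
            exact hls f hfb _ hHL _ hW1 1 (by norm_num) (2 ^ n) Nat.one_le_two_pow R r hrR c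
          · rw [hJd]
            exact hls f hfb _ hHL _ hW2 2 (by norm_num) (2 ^ n) Nat.one_le_two_pow R r hrR c) c
      have e3 : (1 : ℝ) - 1 / 2 = 1 / 2 := by norm_num
      rw [e3] at hmain
      refine Fp_le hC₃.le hC₂.le hX0 (m p) (fun n => hS0 p n R) ?_ hmain
      intro n hn
      have hb : 0 ≤ C₂ * ((2 ^ n : ℕ) : ℝ) ^ 3 * S p n R := mul_nonneg (by positivity) (hS0 p n R)
      refine hold78 (o3_k0_cont (hβ p n)) (o3_k0_nonneg (hβ p n)) (hJc n) (hJ0 n) (k0_mass78 ha0 ha1 (hβ p n))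
        (rpow_pos_of_pos (by linarith) _) ?_
      have h3 : ((C₂ * ((2 ^ n : ℕ) : ℝ) ^ 3 * S p n R + 1) ^ (1 / 12 : ℝ)) ^ 12 = C₂ * ((2 ^ n : ℕ) : ℝ) ^ 3 * S p n R + 1 := by
        rw [← rpow_natCast, ← rpow_mul (by linarith)]
        norm_num
      rw [h3]
      have h4 : ∫ α in Icc (-α₀) α₀, k0 (1 / sqrt ((2 : ℝ) ^ p * ((2 ^ n : ℕ) : ℝ))) α * J n α = C₂ * ((2 ^ n : ℕ) : ℝ) ^ 3 * S p n R := by
        rw [hS]
        unfold Sl
        rw [← integral_const_mul]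
        refine integral_congr_ae (Eventually.of_forall fun α => ?_)
        simp only
        rw [hJd]
        ring
      rw [h4]
      linarith
    · rw [hΦ2 p hp]
      push Not at hp
      have h1 := hC₄ R (hX1.trans hR.1) (by linarith [hR.2]) c
      exact pow_le_pow_left₀ (abs_nonneg _) (h1.trans (le_abs_self C₄)) 12

/-- almost every frame with positive determinant -/
theorem frame_mean_ae {H : ℝ → ℝ} (hH : IsSupp H) (h5 : ContDiff ℝ 5 H)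
    (hmom : ∀ c₁ B : ℝ, 0 < c₁ → c₁ ≤ 1 → 1 ≤ B → MomP (Pool.Agent.Helper60.LT.Hom c₁ B)) :
    ∀ᵐ f : Fr, 0 < fdet f → ∀ ε : ℝ, 0 < ε → ∃ C : ℝ, ∃ G : ℝ → ℝ, Measurable G ∧
      (∀ R : ℝ, 1 ≤ R → ∀ c : ℝ × ℝ, |cntc (Hf H f) c R - area (Hf H f) * R ^ 2| ≤ G R) ∧
      ∀ X : ℝ, 1 ≤ X → ∫⁻ R in Icc 1 X, ENNReal.ofReal (G R ^ 12) ≤ ENNReal.ofReal (C * X ^ (7 + ε)) := by
  obtain ⟨α₀, c₁, B, ha0, ha1, hc₁, hc₁1, hB, hjc, hfam⟩ := fam hH h5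
  have hβ : ∀ p n : ℕ, 0 < 1 / sqrt ((2 : ℝ) ^ p * ((2 ^ n : ℕ) : ℝ)) := by
    intro p n
    have : (0 : ℝ) < ((2 ^ n : ℕ) : ℝ) := by exact_mod_cast Nat.one_le_two_pow
    positivity
  have h1 := ae_JJ (hmom c₁ B hc₁ hc₁1 hB) (h := fun α => hom (ga H α)) hjc (α₀ := α₀) (fun α hα => (hfam α hα).1)
    (κ := fun p n => k0 (1 / sqrt ((2 : ℝ) ^ p * ((2 ^ n : ℕ) : ℝ)))) (fun p n => o3_k0_cont (hβ p n)) (fun p n => o3_k0_nonneg (hβ p n))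
    (K := 20) (fun p n => k0_mass78 ha0 ha1 (hβ p n))
  filter_upwards [h1] with f hf hdet ε hε
  obtain ⟨e, he⟩ : ∃ e : ℝ, e = min (ε / 13) (1 / 1000) := ⟨_, rfl⟩
  have he0 : 0 < e := by
    rw [he]
    exact lt_min (by linarith) (by norm_num)
  have he1 : e ≤ 1 / 1000 := by
    rw [he]
    exact min_le_right _ _
  have he2 : 13 * e ≤ ε := by
    have : e ≤ ε / 13 := by
      rw [he]
      exact min_le_left _ _
    linarith
  obtain ⟨C₁, hC₁, hJ⟩ := hf hdet e he0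
  obtain ⟨C, G, hG, hG1, hG2⟩ := frame_mean hH ha0 ha1 hjc (fun α hα => (hfam α hα).2) hdet.ne' he0 he1 hC₁ hJ
  refine ⟨|C|, G, hG, hG1, fun X hX => (hG2 X hX).trans (ENNReal.ofReal_le_ofReal ?_)⟩
  calc C * X ^ (7 + 13 * e) ≤ |C| * X ^ (7 + 13 * e) := mul_le_mul_of_nonneg_right (le_abs_self C) (by positivity)
    _ ≤ |C| * X ^ (7 + ε) := mul_le_mul_of_nonneg_left (rpow_le_rpow_of_exponent_le hX (by linarith)) (abs_nonneg C)

end Pool.Agent.Helper78.LM
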