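import Pool.Agent.Helper92.LA.D3
import Pool.Agent.Helper78.LM.D

/-!
# LM-E: the twelfth mean over the radii, uniformly in the centre, for almost every lattice
-/

open MeasureTheory Real Set Filter Topology

set_option autoImplicit false

namespace Pool.Agent.Helper78.LM

open Pool.Agent.Helper22.AE
open Pool.Agent.Helper22.AC (cntc ga)
open Pool.Agent.Helper22.LP (Fr fdet Hf Hf_isSupp dom_lin area_lin)
open Pool.Agent.Helper92.LA

/-- the twelfth mean, with a majorant that does not depend on the centre -/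
def Mean (E : ℝ × ℝ → ℝ → ℝ) (ε : ℝ) : Prop := ∃ C : ℝ, ∃ G : ℝ → ℝ, Measurable G ∧ (∀ R : ℝ, 1 ≤ R → ∀ c : ℝ × ℝ, |E c R| ≤ G R) ∧
  ∀ X : ℝ, 1 ≤ X → ∫⁻ R in Icc 1 X, ENNReal.ofReal (G R ^ 12) ≤ ENNReal.ofReal (C * X ^ (7 + ε))

theorem Mean.mono {E E' : ℝ × ℝ → ℝ → ℝ} {ε : ℝ} (h : Mean E ε) (hE : ∀ R : ℝ, 1 ≤ R → ∀ c, ∃ c', |E' c R| ≤ |E c' R|) : Mean E' ε := by
  obtain ⟨C, G, h1, h2, h3⟩ := h
  refine ⟨C, G, h1, fun R hR c => ?_, h3⟩
  obtain ⟨c', hc'⟩ := hE R hR c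
  exact hc'.trans (h2 R hR c')

/-- every oval containing the origin, almost every lattice -/
theorem lattice_mean_supp {H : ℝ → ℝ} (hH : IsSupp H) (h5 : ContDiff ℝ 5 H)
    (hmom : ∀ c₁ B : ℝ, 0 < c₁ → c₁ ≤ 1 → 1 ≤ B → MomP (Pool.Agent.Helper60.LT.Hom c₁ B)) :
    ∀ᵐ ab : Fr, fdet ab ≠ 0 → ∀ ε : ℝ, 0 < ε → Mean (fun c R => lcnt ab H c R - area H * R ^ 2 / abs (fdet ab)) ε := by
  have h1 := ae_dual (frame_mean_ae hH h5 hmom)
  have h2 : ∀ᵐ ab : Fr, 0 < fdet ab → ∀ ε : ℝ, 0 < ε → Mean (fun c R => lcnt ab H c R - area H * R ^ 2 / abs (fdet ab)) ε := by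
    filter_upwards [h1] with ab h hd ε hε
    have h3 : Mean (fun c R => cntc (Hf H (dl ab)) c R - area (Hf H (dl ab)) * R ^ 2) ε := h hd ε hε
    refine h3.mono fun R _ c => ⟨((dl ab).1.1 * c.1 + (dl ab).1.2 * c.2, (dl ab).2.1 * c.1 + (dl ab).2.2 * c.2), le_of_eq ?_⟩
    have hdl : fdet (dl ab) ≠ 0 := by
      rw [fdet_dl hd.ne']
      positivity
    rw [← lcnt_eq hH.per hd.ne', area_lin hH.per hdl, fdet_dl hd.ne', abs_div, abs_one]
    have e : 1 / |fdet ab| * area H * R ^ 2 = area H * R ^ 2 / |fdet ab| := by ring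
    rw [e]
  have h3 := ae_swap h2
  filter_upwards [h2, h3] with ab h4 h5 h6 ε hε
  rcases lt_or_gt_of_ne h6 with h7 | h7
  · have e : fdet (ab.2, ab.1) = -fdet ab := by
      unfold fdet
      simp only
      ring
    have h8 := h5 (by rw [e]; linarith) ε hε
    refine h8.mono fun R _ c => ⟨c, le_of_eq ?_⟩
    rw [lcnt_swap, e, abs_neg]
  · exact h4 h7 ε hε

/-- every oval, almost every lattice -/
theorem lattice_mean_ae {H : ℝ → ℝ} (h5 : ContDiff ℝ 5 H) (hp : Function.Periodic H (2 * π)) (hr : ∀ t, 0 < H t + deriv (deriv H) t)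
    (hmom : ∀ c₁ B : ℝ, 0 < c₁ → c₁ ≤ 1 → 1 ≤ B → MomP (Pool.Agent.Helper60.LT.Hom c₁ B)) :
    ∀ᵐ ab : Fr, fdet ab ≠ 0 → ∀ ε : ℝ, 0 < ε → Mean (fun c R => lcnt ab H c R - area H * R ^ 2 / abs (fdet ab)) ε := by
  obtain ⟨v, hv⟩ := Pool.Agent.Helper22.OV.exists_shift (h5.of_le (by norm_num)) hp hr
  filter_upwards [lattice_mean_supp hv (Pool.Agent.Helper22.OV.shf_smooth v h5) hmom] with ab h hd ε hε
  refine (h hd ε hε).mono fun R _ c => ⟨(c.1 - R * v.1, c.2 - R * v.2), le_of_eq ?_⟩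
  rw [Pool.Agent.Helper22.OV.area_shf]
  have h2 : lcnt ab (Pool.Agent.Helper22.OV.shf H v) (c.1 - R * v.1, c.2 - R * v.2) R = lcnt ab H c R := by
    unfold lcnt
    congr 1
    refine Nat.card_congr (Equiv.subtypeEquivRight fun k => ?_)
    refine forall_congr' fun t => ?_
    unfold Pool.Agent.Helper22.OV.shf
    simp only
    constructor
    · intro h
      linarith
    · intro h
      linarith
  rw [h2]

end Pool.Agent.Helper78.LM
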