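import Pool.Agent.Helper92.LA.Fin
import Pool.Agent.Helper78.LM.E

/-!
# LM-Fin: every oval, almost every lattice: exponent 5/9 for all radii and exponent 1/2 in the twelfth mean over the radii, uniformly in the centre
-/

open MeasureTheory Real Set Filter Topology

set_option autoImplicit false

namespace Pool.Agent.Helper78.LM

open Pool.Agent.Helper22.LP (Fr fdet)
open Pool.Agent.Helper22.AE
open Pool.Agent.Helper92.LA

/-- every oval, almost every lattice -/
theorem lattice_both {H : ℝ → ℝ} (h5 : ContDiff ℝ 5 H) (hp : Function.Periodic H (2 * π)) (hr : ∀ t, 0 < H t + deriv (deriv H) t) :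
    ∀ᵐ ab : Fr, fdet ab ≠ 0 ∧ ∀ ε : ℝ, 0 < ε →
      (∃ C : ℝ, ∀ R : ℝ, 1 ≤ R → ∀ c : ℝ × ℝ, |lcnt ab H c R - area H * R ^ 2 / abs (fdet ab)| ≤ C * R ^ (5 / 9 + ε)) ∧
      Mean (fun c R => lcnt ab H c R - area H * R ^ 2 / abs (fdet ab)) ε := by
  filter_upwards [lattice_main h5 hp hr, lattice_mean_ae h5 hp hr fun _ _ hc hc1 hB => momP hc hc1 hB] with ab h1 h2
  exact ⟨h1.1, fun ε hε => ⟨h1.2 ε hε, h2 h1.1 ε hε⟩⟩

end Pool.Agent.Helper78.LM
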